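import Pool.Agent.H.MP_7d0545_co.Defs

namespace Pool.Agent.H.MP_7d0545_co

open Finset

def g : Fin 8 → Fin 4 → ℤ :=
  ![![1, 0, 0, 0], ![0, 0, 1, 0], ![0, 0, 0, 1], ![0, 0, -1, -1], ![-1, 0, 0, 0], ![0, 1, -1, -1],
    ![-1, -1, 0, 0], ![1, 0, 1, 1]]

def fam : Fin 20 → Finset (Fin 8) :=
  ![∅, {0}, {1}, {2}, {3}, {4}, {5}, {6}, {7}, {0, 1}, {0, 2}, {0, 3}, {1, 4}, {2, 4}, {3, 5},
    {3, 6}, {5, 7}, {4, 5}, {4, 6}, {6, 7}]

def idot (a v : Fin 4 → ℤ) : ℤ := a 0 * v 0 + a 1 * v 1 + a 2 * v 2 + a 3 * v 3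

def L1 : List (Fin 4 → ℤ) :=
  [![0, -1, 1, 1], ![1, 1, 0, 0], ![-1, 0, 0, 0], ![0, 0, -1, 0], ![-1, 1, 0, 2], ![2, -1, -1, 0],
   ![0, -1, 0, 0], ![0, 1, 0, 0]]

def L2 : List (Fin 4 → ℤ) :=
  [![-3, 0, 1, 1], ![3, 0, -1, -1], ![-1, 0, -1, -1], ![1, 0, 1, 1], ![0, -1, -1, 1],
   ![-1, 3, 3, -1], ![1, -3, -3, 1], ![0, 1, 1, -2], ![1, 0, 0, 0], ![-1, 1, 0, 0], ![-1, 0, -1, 3],
   ![1, -1, 1, -2], ![0, 0, 1, 0], ![0, 1, 0, 1], ![-1, 2, -1, 1], ![1, -2, 1, -1], ![-1, 0, 0, 0],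
   ![0, 1, -1, 1], ![1, 0, 1, -3], ![0, -2, -1, -1], ![-1, 1, 0, 1], ![-1, 3, -1, 3],
   ![1, -3, 1, -3], ![0, 0, -1, 0], ![1, -1, 0, 0], ![-1, 0, 3, -1], ![-1, 2, 1, -1],
   ![1, -2, -1, 1], ![1, 0, -3, 1]]

theorem D1 : ∀ s : Fin 20, ∀ i ∈ fam s, ∃ a ∈ L1, idot a (g i) = 1 ∧
    ∀ j ∈ fam s, j ≠ i → idot a (g j) = 0 := by decide +kernel

theorem D2 : ∀ s t : Fin 20, ∃ a ∈ L2, ∀ i : Fin 8,
    (i ∈ fam s → i ∉ fam t → idot a (g i) < 0) ∧ (i ∈ fam t → i ∉ fam s → 0 < idot a (g i)) ∧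
    (i ∈ fam s → i ∈ fam t → idot a (g i) = 0) := by decide +kernel

theorem D3 : ∀ s : Fin 20, ∀ T ∈ (fam s).powerset, ∃ t, fam t = T := by decide +kernel

theorem D4 : ∀ s t : Fin 20, fam s = fam t → s = t := by decide +kernel

theorem D5 : ∀ s : Fin 20, ∃ t, fam s ⊆ fam t ∧ (fam t).card = 2 := by decide +kernel

def oth (t s : Fin 20) : Fin 8 :=
  ((List.finRange 8).find? (fun j => decide (j ∈ fam s ∧ j ∉ fam t))).getD 0

def fst (t : Fin 20) : Fin 8 := ((List.finRange 8).find? (fun j => decide (j ∈ fam t))).getD 0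

theorem D6 : ∀ t s : Fin 20, (fam t).card = 1 → (fam s).card = 2 → fam t ⊆ fam s →
    fam t = {fst t} ∧ fam s = {fst t, oth t s} ∧ fst t ≠ oth t s := by decide +kernel

theorem D7 : ∀ t : Fin 20, (fam t).card = 1 → fam t = {fst t} ∧ ∃ k ∈ ([-1, 0, 1] : List ℤ),
    ∀ c : Fin 4, (∑ s with (fam s).card = 2 ∧ fam t ⊆ fam s, g (oth t s) c) = k * g (fst t) c := by
  decide +kernel

def cone (S : Finset (Fin 8)) : Set (V 4) :=
  {x | ∃ c : Fin 8 → ℝ, (∀ i, 0 ≤ c i) ∧ (∀ i, i ∉ S → c i = 0) ∧ x = ∑ i, c i • vec (g i)}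

def Lf (a : Fin 4 → ℤ) : V 4 →ₗ[ℝ] ℝ where
  toFun x := a 0 * x 0 + a 1 * x 1 + a 2 * x 2 + a 3 * x 3
  map_add' x y := by simp only [Pi.add_apply]; ring
  map_smul' c x := by simp only [Pi.smul_apply, smul_eq_mul, RingHom.id_apply]; ring

theorem Lf_vec (a v : Fin 4 → ℤ) : Lf a (vec v) = (idot a v : ℝ) := by
  simp [Lf, vec, idot]

theorem zero_mem (S : Finset (Fin 8)) : (0 : V 4) ∈ cone S :=
  ⟨0, fun _ => le_rfl, fun _ _ => rfl, by simp⟩

theorem gen_mem {S : Finset (Fin 8)} {i : Fin 8} (h : i ∈ S) : vec (g i) ∈ cone S := by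
  refine ⟨Pi.single i 1, fun j => ?_, fun j hj => ?_, ?_⟩
  · by_cases hj : j = i
    · subst hj; simp
    · simp [hj]
  · have : j ≠ i := fun e => hj (e ▸ h)
    simp [this]
  · rw [Finset.sum_eq_single i] <;> simp +contextual

theorem smul_mem {S : Finset (Fin 8)} {x : V 4} (h : x ∈ cone S) {r : ℝ} (hr : 0 ≤ r) :
    r • x ∈ cone S := by
  obtain ⟨c, h0, h1, rfl⟩ := h
  refine ⟨fun i => r * c i, fun i => mul_nonneg hr (h0 i), fun i hi => by simp [h1 i hi], ?_⟩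
  simp [Finset.smul_sum, smul_smul]

theorem cone_mono {S T : Finset (Fin 8)} (h : S ⊆ T) : cone S ⊆ cone T := by
  rintro x ⟨c, h0, h1, rfl⟩
  exact ⟨c, h0, fun i hi => h1 i (fun e => hi (h e)), rfl⟩

theorem span_cone (S : Finset (Fin 8)) :
    vectorSpan ℝ (cone S) = Submodule.span ℝ (vec '' (g '' (S : Set (Fin 8)))) := by
  apply le_antisymm
  · have key : ∀ x ∈ cone S, x ∈ Submodule.span ℝ (vec '' (g '' (S : Set (Fin 8)))) := by
      rintro x ⟨c, h0, h1, rfl⟩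
      refine Submodule.sum_mem _ fun i _ => ?_
      by_cases hi : i ∈ S
      · exact Submodule.smul_mem _ _ (Submodule.subset_span ⟨_, ⟨i, hi, rfl⟩, rfl⟩)
      · simp [h1 i hi]
    rw [vectorSpan_def, Submodule.span_le]
    rintro _ ⟨x, hx, y, hy, rfl⟩
    exact Submodule.sub_mem _ (key x hx) (key y hy)
  · rw [Submodule.span_le]
    rintro _ ⟨_, ⟨i, hi, rfl⟩, rfl⟩
    have := vsub_mem_vectorSpan ℝ (gen_mem hi) (zero_mem S)
    simpa using this

theorem face_eq (S : Finset (Fin 8)) (a : V 4 →ₗ[ℝ] ℝ) (ha : ∀ i ∈ S, a (vec (g i)) ≤ 0) :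
    (∀ x ∈ cone S, a x ≤ 0) ∧
    {x ∈ cone S | a x = 0} = cone (S.filter (fun i => a (vec (g i)) = 0)) := by
  have hterm : ∀ c : Fin 8 → ℝ, (∀ i, 0 ≤ c i) → (∀ i, i ∉ S → c i = 0) →
      ∀ i, c i * a (vec (g i)) ≤ 0 := by
    intro c h0 h1 i
    by_cases hi : i ∈ S
    · exact mul_nonpos_of_nonneg_of_nonpos (h0 i) (ha i hi)
    · simp [h1 i hi]
  refine ⟨?_, ?_⟩
  · rintro x ⟨c, h0, h1, rfl⟩
    rw [map_sum]
    exact Finset.sum_nonpos fun i _ => by simpa using hterm c h0 h1 i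
  · ext x
    constructor
    · rintro ⟨⟨c, h0, h1, rfl⟩, hx⟩
      refine ⟨c, h0, fun i hi => ?_, rfl⟩
      rw [map_sum] at hx
      have := (Finset.sum_eq_zero_iff_of_nonpos
        (fun i _ => by simpa using hterm c h0 h1 i)).1 hx i (Finset.mem_univ i)
      by_cases hs : i ∈ S
      · have h2 : a (vec (g i)) ≠ 0 := fun e => hi (Finset.mem_filter.2 ⟨hs, e⟩)
        simpa [h2] using this
      · exact h1 i hs
    · rintro ⟨c, h0, h1, rfl⟩
      refine ⟨⟨c, h0, fun i hi => h1 i (fun e => hi (Finset.mem_filter.1 e).1), rfl⟩, ?_⟩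
      rw [map_sum]
      refine Finset.sum_eq_zero fun i _ => ?_
      by_cases hi : i ∈ S.filter (fun i => a (vec (g i)) = 0)
      · simp [(Finset.mem_filter.1 hi).2]
      · simp [h1 i hi]

theorem faces (s : Fin 20) (F : Set (V 4)) (h : IsFace F (cone (fam s))) :
    ∃ t, cone (fam t) = F := by
  obtain ⟨⟨x, hx⟩, a, b, hab, rfl⟩ := h
  have hb : b = 0 := by
    have h1 := hab 0 (zero_mem _)
    have h2 := hab _ (smul_mem hx.1 (r := 2) (by norm_num))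
    rw [map_smul, hx.2] at h2
    simp at h1 h2
    linarith
  subst hb
  have := face_eq (fam s) a (fun i hi => hab _ (gen_mem hi))
  obtain ⟨t, ht⟩ := D3 s _ (Finset.mem_powerset.2
    (Finset.filter_subset (fun i => a (vec (g i)) = 0) (fam s)))
  exact ⟨t, by rw [ht, this.2]⟩

theorem inter_aux (s t : Fin 20) : ∃ a : V 4 →ₗ[ℝ] ℝ, (∀ x ∈ cone (fam s), a x ≤ 0) ∧
    cone (fam s) ∩ cone (fam t) = {x ∈ cone (fam s) | a x = 0} ∧
    ∀ i ∈ fam s, i ∉ fam t → a (vec (g i)) < 0 := by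
  obtain ⟨a, -, ha⟩ := D2 s t
  have h1 := face_eq (fam s) (Lf a) (fun i hi => by
    rw [Lf_vec]
    by_cases h : i ∈ fam t
    · rw [(ha i).2.2 hi h]; simp
    · exact_mod_cast ((ha i).1 hi h).le)
  have h2 := face_eq (fam t) (-Lf a) (fun i hi => by
    rw [LinearMap.neg_apply, Lf_vec, neg_nonpos]
    by_cases h : i ∈ fam s
    · rw [(ha i).2.2 h hi]; simp
    · exact_mod_cast ((ha i).2.1 hi h).le)
  refine ⟨Lf a, h1.1, ?_, fun i hi h => by rw [Lf_vec]; exact_mod_cast (ha i).1 hi h⟩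
  ext x
  constructor
  · rintro ⟨hs, ht⟩
    have := h2.1 x ht
    rw [LinearMap.neg_apply, neg_nonpos] at this
    exact ⟨hs, le_antisymm (h1.1 x hs) this⟩
  · intro hx
    refine ⟨hx.1, ?_⟩
    rw [h1.2] at hx
    refine cone_mono (fun i hi => ?_) hx
    obtain ⟨hi1, hi2⟩ := Finset.mem_filter.1 hi
    by_contra h
    rw [Lf_vec] at hi2
    have := (ha i).1 hi1 h
    have h3 : idot a (g i) = 0 := by exact_mod_cast hi2
    omega

theorem sub_iff (s t : Fin 20) : cone (fam s) ⊆ cone (fam t) ↔ fam s ⊆ fam t := by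
  refine ⟨fun h i hi => ?_, cone_mono⟩
  by_contra hn
  obtain ⟨a, -, h2, h3⟩ := inter_aux s t
  have : vec (g i) ∈ cone (fam s) ∩ cone (fam t) := ⟨gen_mem hi, h (gen_mem hi)⟩
  rw [h2] at this
  exact (h3 i hi hn).ne this.2

theorem duals (s : Fin 20) : ∃ a : Fin 8 → Fin 4 → ℤ, (∀ i, i ∉ fam s → a i = 0) ∧
    ∀ i ∈ fam s, idot (a i) (g i) = 1 ∧ ∀ j ∈ fam s, j ≠ i → idot (a i) (g j) = 0 := by
  choose! a ha using D1 s
  refine ⟨fun i => if i ∈ fam s then a i else 0, fun i hi => by simp [hi], fun i hi => ?_⟩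
  simpa [hi] using (ha i hi).2

theorem coord {s : Fin 20} {a : Fin 4 → ℤ} {i : Fin 8} (h1 : idot a (g i) = 1)
    (h2 : ∀ j ∈ fam s, j ≠ i → idot a (g j) = 0) (c : Fin 8 → ℝ) (hc : ∀ i, i ∉ fam s → c i = 0) :
    Lf a (∑ i, c i • vec (g i)) = c i := by
  rw [map_sum, Finset.sum_eq_single i]
  · simp [Lf_vec, h1]
  · intro j _ hj
    by_cases h : j ∈ fam s
    · simp [Lf_vec, h2 j h hj]
    · simp [hc j h]
  · simp

theorem poly (s : Fin 20) : IsPolyhedron (cone (fam s)) := by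
  obtain ⟨a, ha0, ha⟩ := duals s
  let φ : V 4 →ₗ[ℝ] V 4 := ∑ i, (Lf (a i)).smulRight (vec (g i))
  have hφ : ∀ x, φ x = ∑ i, Lf (a i) x • vec (g i) := fun x => by simp [φ]
  let H : Fin 8 ⊕ Fin 4 ⊕ Fin 4 → (V 4 →ₗ[ℝ] ℝ) × ℝ := fun k =>
    (Sum.elim (fun i => -Lf (a i)) (Sum.elim (fun k => (LinearMap.proj k).comp (LinearMap.id - φ))
      (fun k => (LinearMap.proj k).comp (φ - LinearMap.id))) k, 0)
  refine ⟨⟨0, zero_mem _⟩, Set.range H, Set.finite_range H, ?_⟩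
  ext x
  constructor
  · rintro ⟨c, h0, h1, rfl⟩
    have hc : ∀ i, Lf (a i) (∑ i, c i • vec (g i)) = c i := by
      intro i
      by_cases hi : i ∈ fam s
      · exact coord (ha i hi).1 (ha i hi).2 c h1
      · rw [ha0 i hi, h1 i hi]; simp [Lf]
    have hx : φ (∑ i, c i • vec (g i)) = ∑ i, c i • vec (g i) := by rw [hφ]; simp only [hc]
    rintro _ ⟨k, rfl⟩
    rcases k with i | k | k
    · simp only [H, Sum.elim_inl, LinearMap.neg_apply, hc]; linarith [h0 i]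
    · simp only [H, Sum.elim_inr, Sum.elim_inl, LinearMap.comp_apply, LinearMap.sub_apply, hx,
        LinearMap.id_apply, sub_self, map_zero, le_refl]
    · simp only [H, Sum.elim_inr, LinearMap.comp_apply, LinearMap.sub_apply, hx,
        LinearMap.id_apply, sub_self, map_zero, le_refl]
  · intro hx
    refine ⟨fun i => Lf (a i) x, fun i => ?_, fun i hi => by simp [ha0 i hi, Lf], ?_⟩
    · have := hx _ ⟨Sum.inl i, rfl⟩
      simpa [H] using this
    · rw [← hφ]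
      funext k
      have e1 := hx _ ⟨Sum.inr (Sum.inl k), rfl⟩
      have e2 := hx _ ⟨Sum.inr (Sum.inr k), rfl⟩
      simp [H] at e1 e2
      linarith

theorem dim_cone (s : Fin 20) : dim (cone (fam s)) = (fam s).card := by
  obtain ⟨a, -, ha⟩ := duals s
  have hli : LinearIndependent ℝ (fun i : fam s => vec (g i)) := by
    rw [Fintype.linearIndependent_iff]
    intro c hc i
    have := congrArg (Lf (a i)) hc
    rw [map_sum, Finset.sum_eq_single i] at this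
    · simpa [Lf_vec, (ha i i.2).1] using this
    · intro j _ hj
      simp [Lf_vec, (ha i i.2).2 j j.2 (fun e => hj (Subtype.ext e))]
    · simp
  have := finrank_span_eq_card hli
  have e : vec '' (g '' (fam s : Set (Fin 8))) = Set.range (fun i : fam s => vec (g i)) := by
    ext v; simp
  rw [dim, span_cone, e, this, Fintype.card_coe]

end Pool.Agent.H.MP_7d0545_co
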