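import Pool.Agent.H.MP_7d0545_co.A

namespace Pool.Agent.H.MP_7d0545_co

open Finset Pointwise Classical

theorem vec_sub (u v : Fin 4 → ℤ) (k : ℤ) : vec (v - k • u) = vec v - (k : ℝ) • vec u := by
  funext i; simp [vec]

theorem span1 {t : Fin 20} {i : Fin 8} (h : fam t = {i}) (x : V 4) :
    x ∈ vectorSpan ℝ (cone (fam t)) ↔ ∃ c : ℝ, c • vec (g i) = x := by
  rw [span_cone, h]; simp [Submodule.mem_span_singleton]

theorem span2 {t : Fin 20} {i j : Fin 8} (h : fam t = {i, j}) (x : V 4) :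
    x ∈ vectorSpan ℝ (cone (fam t)) ↔ ∃ c d : ℝ, c • vec (g i) + d • vec (g j) = x := by
  rw [span_cone, h]; simp [Set.image_insert_eq, Submodule.mem_span_pair]

theorem normal_spec {t s : Fin 20} {i j : Fin 8} (ht : fam t = {i}) (hs : fam s = {i, j})
    (hij : i ≠ j) : IsNormal (cone (fam t)) (cone (fam s)) (g j) ∧
    ∀ u, IsNormal (cone (fam t)) (cone (fam s)) u →
      vec u - vec (g j) ∈ vectorSpan ℝ (cone (fam t)) := by
  have hj : j ∈ fam s := by simp [hs]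
  have hi : i ∈ fam s := by simp [hs]
  obtain ⟨a, -, a1, a2⟩ := D1 s j hj
  have ai : Lf a (vec (g i)) = 0 := by rw [Lf_vec, a2 i hi hij]; simp
  have aj : Lf a (vec (g j)) = 1 := by rw [Lf_vec, a1]; simp
  refine ⟨⟨(span2 hs _).2 ⟨0, 1, by simp⟩, fun v hv => ?_,
    0, zero_mem _, 1, one_pos, by simpa using gen_mem hj⟩, ?_⟩
  · obtain ⟨c, d, h⟩ := (span2 hs _).1 hv
    have := congrArg (Lf a) h
    rw [map_add, map_smul, map_smul, ai, aj, Lf_vec] at this
    refine ⟨idot a v, (span1 ht _).2 ⟨c, ?_⟩⟩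
    rw [vec_sub, ← this, ← h]; simp
  · rintro u ⟨h1, h2, x, hx, e, he, hxe⟩
    obtain ⟨c, d, h⟩ := (span2 hs _).1 h1
    have e1 := congrArg (Lf a) h
    rw [map_add, map_smul, map_smul, ai, aj, Lf_vec] at e1
    obtain ⟨k, hk⟩ := h2 (g j) ((span2 hs _).2 ⟨0, 1, by simp⟩)
    obtain ⟨c', hc'⟩ := (span1 ht _).1 hk
    have e2 := congrArg (Lf a) hc'
    rw [vec_sub, map_sub, map_smul, map_smul, ai, aj, Lf_vec] at e2
    have e3 : k * idot a u = 1 := by
      have : (k : ℝ) * (idot a u : ℝ) = 1 := by simp at e2; linarith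
      exact_mod_cast this
    have hx0 : Lf a x = 0 := by
      obtain ⟨c'', hc''⟩ := (span1 ht x).1 (by
        simpa using vsub_mem_vectorSpan ℝ hx (zero_mem (fam t)))
      rw [← hc'', map_smul, ai]; simp
    have hpos : 0 ≤ Lf a (x + e • vec u) := by
      obtain ⟨c2, g0, g1, g2⟩ := hxe
      rw [g2, coord a1 a2 c2 g1]; exact g0 j
    rw [map_add, map_smul, hx0, Lf_vec] at hpos
    have e4 : 0 ≤ idot a u := by
      have : (0 : ℝ) ≤ idot a u := by
        by_contra hn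
        push Not at hn
        have := mul_neg_of_pos_of_neg he hn
        simp at hpos
        linarith
      exact_mod_cast this
    have e5 : idot a u = 1 := Int.eq_one_of_mul_eq_one_left e4 e3
    have e6 : d = 1 := by rw [e5] at e1; simpa using e1
    refine (span1 ht _).2 ⟨c, ?_⟩
    rw [← h, e6]; simp

noncomputable def Sig : PolyComplex 4 where
  m := 20
  cell s := cone (fam s)
  d := 2
  inj s t h := D4 s t (Finset.Subset.antisymm ((sub_iff s t).1 h.le) ((sub_iff t s).1 h.ge))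
  poly := poly
  rat s := ⟨_, span_cone _⟩
  faces := faces
  inter s t hne := by
    obtain ⟨a, h1, h2, -⟩ := inter_aux s t
    exact ⟨hne, a, 0, h1, h2⟩
  pure s := by
    obtain ⟨t, h1, h2⟩ := D5 s
    exact ⟨t, cone_mono h1, by rw [dim_cone, h2]⟩

theorem filt (t : Fin 20) :
    (univ.filter fun s : Fin 20 => dim (cone (fam s)) = 2 ∧ cone (fam t) ⊆ cone (fam s)) =
    univ.filter fun s : Fin 20 => (fam s).card = 2 ∧ fam t ⊆ fam s := by
  ext s; simp [dim_cone, sub_iff]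

theorem bal_iff (w : Fin 20 → ℝ) : Balancing Sig w ↔ ∀ t : Fin 20, (fam t).card = 1 →
    (∑ s with (fam s).card = 2 ∧ fam t ⊆ fam s, w s • vec (g (oth t s))) ∈
      vectorSpan ℝ (cone (fam t)) := by
  constructor
  · intro h t ht
    obtain ⟨u, h1, h2⟩ := h t (by change dim (cone (fam t)) + 1 = 2; rw [dim_cone, ht])
    have h3 : (∑ s with (fam s).card = 2 ∧ fam t ⊆ fam s, w s • vec (u s)) ∈
        vectorSpan ℝ (cone (fam t)) := by
      rw [← filt]; exact h2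
    have h4 : (∑ s with (fam s).card = 2 ∧ fam t ⊆ fam s, w s • (vec (u s) - vec (g (oth t s)))) ∈
        vectorSpan ℝ (cone (fam t)) := by
      refine Submodule.sum_mem _ fun s hs => Submodule.smul_mem _ _ ?_
      obtain ⟨k1, k2⟩ := (Finset.mem_filter.1 hs).2
      obtain ⟨a1, a2, a3⟩ := D6 t s ht k1 k2
      exact (normal_spec a1 a2 a3).2 _ (h1 s ((dim_cone s).trans k1) (cone_mono k2))
    have := Submodule.sub_mem _ h3 h4
    rw [← Finset.sum_sub_distrib] at this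
    simpa [smul_sub] using this
  · intro h t ht
    have ht' : (fam t).card = 1 := by
      change dim (cone (fam t)) + 1 = 2 at ht
      rw [dim_cone] at ht; omega
    refine ⟨fun s => g (oth t s), fun s k1 k2 => ?_, ?_⟩
    · obtain ⟨a1, a2, a3⟩ := D6 t s ht' ((dim_cone s).symm.trans k1) ((sub_iff t s).1 k2)
      exact (normal_spec a1 a2 a3).1
    · have := h t ht'
      rw [← filt] at this
      exact this

theorem sig_bal : IsBalanced Sig (fun _ => 1) := by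
  refine ⟨fun _ _ => one_pos, (bal_iff _).2 fun t ht => ?_⟩
  obtain ⟨h1, k, -, hk⟩ := D7 t ht
  refine (span1 h1 _).2 ⟨k, ?_⟩
  funext c
  have := congrArg (Int.cast : ℤ → ℝ) (hk c)
  simp only [Int.cast_sum, Int.cast_mul] at this
  simp [vec, Finset.sum_apply, this]

theorem F1 : (univ.filter fun s : Fin 20 => (fam s).card = 2 ∧ fam 1 ⊆ fam s) = {9, 10, 11} ∧
    (univ.filter fun s : Fin 20 => (fam s).card = 2 ∧ fam 2 ⊆ fam s) = {9, 12} ∧
    (univ.filter fun s : Fin 20 => (fam s).card = 2 ∧ fam 3 ⊆ fam s) = {10, 13} ∧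
    (univ.filter fun s : Fin 20 => (fam s).card = 2 ∧ fam 4 ⊆ fam s) = {11, 14, 15} ∧
    (univ.filter fun s : Fin 20 => (fam s).card = 2 ∧ fam 6 ⊆ fam s) = {14, 16, 17} ∧
    (univ.filter fun s : Fin 20 => (fam s).card = 2 ∧ fam 7 ⊆ fam s) = {15, 18, 19} := by
  decide +kernel

theorem F2 : oth 1 9 = 1 ∧ oth 1 10 = 2 ∧ oth 1 11 = 3 ∧ oth 2 9 = 0 ∧ oth 2 12 = 4 ∧
    oth 3 10 = 0 ∧ oth 3 13 = 4 ∧ oth 4 11 = 0 ∧ oth 4 14 = 5 ∧ oth 4 15 = 6 ∧ oth 6 14 = 3 ∧
    oth 6 16 = 7 ∧ oth 6 17 = 4 ∧ oth 7 15 = 3 ∧ oth 7 18 = 4 ∧ oth 7 19 = 7 := by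
  decide +kernel

theorem F3 : ∀ s : Fin 20, (fam s).card = 2 → s = 9 ∨ s = 10 ∨ s = 11 ∨ s = 12 ∨ s = 13 ∨ s = 14 ∨
    s = 15 ∨ s = 16 ∨ s = 17 ∨ s = 18 ∨ s = 19 := by decide +kernel

theorem sig_ext : Extremal Sig (fun _ => 1) := by
  intro w hw
  have h := (bal_iff w).1 hw
  obtain ⟨f1, f2, f3, f4, f6, f7⟩ := F1
  obtain ⟨c1, e1⟩ := (span1 (i := 0) rfl _).1 (h 1 rfl)
  obtain ⟨c2, e2⟩ := (span1 (i := 1) rfl _).1 (h 2 rfl)
  obtain ⟨c3, e3⟩ := (span1 (i := 2) rfl _).1 (h 3 rfl)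
  obtain ⟨c4, e4⟩ := (span1 (i := 3) rfl _).1 (h 4 rfl)
  obtain ⟨c6, e6⟩ := (span1 (i := 5) rfl _).1 (h 6 rfl)
  obtain ⟨c7, e7⟩ := (span1 (i := 6) rfl _).1 (h 7 rfl)
  rw [f1, Finset.sum_insert (by decide), Finset.sum_pair (by decide)] at e1
  rw [f2, Finset.sum_pair (by decide)] at e2
  rw [f3, Finset.sum_pair (by decide)] at e3
  rw [f4, Finset.sum_insert (by decide), Finset.sum_pair (by decide)] at e4
  rw [f6, Finset.sum_insert (by decide), Finset.sum_pair (by decide)] at e6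
  rw [f7, Finset.sum_insert (by decide), Finset.sum_pair (by decide)] at e7
  simp only [F2] at e1 e2 e3 e4 e6 e7
  have a1 := congrFun e1 2
  have a2 := congrFun e1 3
  have a3 := congrFun e2 0
  have a4 := congrFun e3 0
  have a5 := congrFun e4 0
  have a6 := congrFun e4 1
  have a7 := congrFun e6 0
  have a8 := congrFun e6 1
  have a9 := congrFun e6 2
  have a10 := congrFun e7 0
  have a11 := congrFun e7 1
  have a12 := congrFun e7 2
  simp [vec, g] at a1 a2 a3 a4 a5 a6 a7 a8 a9 a10 a11 a12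
  refine ⟨w (9 : Fin 20), fun s hs => ?_⟩
  rcases F3 s ((dim_cone s).symm.trans hs) with
    h | h | h | h | h | h | h | h | h | h | h <;> rw [h] <;> simp <;> linarith

end Pool.Agent.H.MP_7d0545_co
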