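import Pool.Agent.H.MP_7d0545_co.B

namespace Pool.Agent.H.MP_7d0545_co

open Finset Pointwise Classical

def Pl : Set (V 4) := {x | x 0 = 1 ∧ x 1 = 0}

def p0 : V 4 := ![1, 0, 0, 0]
def q0 : V 4 := ![1, 0, 1, 1]

theorem p0_mem : p0 ∈ Pl := by simp [Pl, p0]
theorem q0_mem : q0 ∈ Pl := by simp [Pl, q0]

theorem add_p0 {b : V 4} (b0 : b 0 = 0) (b1 : b 1 = 0) : b + p0 ∈ Pl :=
  ⟨by rw [Pi.add_apply, b0, p0_mem.1, zero_add], by rw [Pi.add_apply, b1, p0_mem.2, zero_add]⟩

theorem face_self : IsFace Pl Pl := ⟨⟨p0, p0_mem⟩, 0, 0, by simp, by simp⟩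

noncomputable def Lc : PolyComplex 4 where
  m := 1
  cell _ := Pl
  d := dim Pl
  inj s t _ := Subsingleton.elim s t
  poly _ := by
    refine ⟨⟨p0, p0_mem⟩, {(LinearMap.proj 0, 1), (-LinearMap.proj 0, -1), (LinearMap.proj 1, 0),
      (-LinearMap.proj 1, 0)}, Set.toFinite _, ?_⟩
    ext x
    simp only [Pl, Set.mem_ofPred_eq, Set.mem_insert_iff, Set.mem_singleton_iff, forall_eq_or_imp,
      forall_eq, LinearMap.neg_apply, LinearMap.proj_apply]
    constructor
    · rintro ⟨h1, h2⟩; simp [h1, h2]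
    · rintro ⟨h1, h2, h3, h4⟩; constructor <;> linarith
  rat _ := by
    refine ⟨{g 1, g 2}, le_antisymm ?_ ?_⟩
    · rw [vectorSpan_def, Submodule.span_le]
      rintro _ ⟨x, hx, y, hy, rfl⟩
      rw [Set.image_pair, SetLike.mem_coe, Submodule.mem_span_pair]
      refine ⟨x 2 - y 2, x 3 - y 3, ?_⟩
      funext k
      fin_cases k <;> simp [vec, g, hx.1, hx.2, hy.1, hy.2]
    · rw [Submodule.span_le]
      rintro _ ⟨v, hv, rfl⟩
      have : vec v + p0 ∈ Pl := by
        rcases hv with rfl | rfl <;> apply add_p0 <;> simp [vec, g]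
      simpa using vsub_mem_vectorSpan ℝ this p0_mem
  faces _ F := by
    rintro ⟨⟨x, hx⟩, a, b, hab, rfl⟩
    refine ⟨0, ?_⟩
    ext y
    refine ⟨fun hy => ⟨hy, ?_⟩, fun h => h.1⟩
    have h1 := hab y hy
    have h2 := hab ((2 : ℝ) • x - y) (by
      constructor
      · simp [hx.1.1, hy.1]; norm_num
      · simp [hx.1.2, hy.2])
    rw [map_sub, map_smul, hx.2] at h2
    simp at h2
    linarith
  inter _ _ _ := by simpa using face_self
  pure _ := ⟨0, le_rfl, rfl⟩

theorem lc_bal : IsBalanced Lc (fun _ => 1) :=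
  ⟨fun _ _ => one_pos, fun t ht => by change dim Pl + 1 = dim Pl at ht; omega⟩

theorem lc_ext : Extremal Lc (fun _ => 1) := fun w _ =>
  ⟨w (0 : Fin 1), fun s _ => by rw [Subsingleton.elim (α := Fin 1) s 0]; simp⟩

theorem G1 : ∀ s : Fin 20, (5 ∉ fam s ∨ 6 ∉ fam s) ∧ (1 ∉ fam s ∨ 2 ∉ fam s) ∧
    (7 ∈ fam s → ∀ i ∈ fam s, i = 5 ∨ i = 6 ∨ i = 7) ∧
    (0 ∈ fam s → 5 ∉ fam s ∧ 6 ∉ fam s ∧ 7 ∉ fam s) := by decide +kernel

theorem cases_pt (s : Fin 20) (x : V 4) (h : x ∈ cone (fam s)) (hx : x ∈ Pl) :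
    x = q0 ∨ (min (x 2) (x 3) ≤ 0 ∧ ∀ y ∈ cone (fam s), y 1 = 0) := by
  obtain ⟨c, h0, h1, e⟩ := h
  obtain ⟨g1, g2, g3, g4⟩ := G1 s
  have e0 := congrFun e 0
  have e1 := congrFun e 1
  have e2 := congrFun e 2
  have e3 := congrFun e 3
  rw [hx.1] at e0
  rw [hx.2] at e1
  simp [Fin.sum_univ_eight, vec, g] at e0 e1 e2 e3
  have c5 : c 5 = 0 ∧ c 6 = 0 := by
    rcases g1 with k | k
    · have := h1 _ k; constructor <;> linarith
    · have := h1 _ k; constructor <;> linarith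
  by_cases k7 : 7 ∈ fam s
  · left
    have z : ∀ i : Fin 8, i ≠ 5 → i ≠ 6 → i ≠ 7 → c i = 0 := fun i a b d =>
      h1 i (fun hi => by rcases g3 k7 i hi with r | r | r <;> contradiction)
    have z0 := z 0 (by decide) (by decide) (by decide)
    have z1 := z 1 (by decide) (by decide) (by decide)
    have z2 := z 2 (by decide) (by decide) (by decide)
    have z3 := z 3 (by decide) (by decide) (by decide)
    have z4 := z 4 (by decide) (by decide) (by decide)
    funext k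
    fin_cases k
    · simp [q0, hx.1]
    · simp [q0, hx.2]
    · simp [q0]; linarith [c5.1, c5.2]
    · simp [q0]; linarith [c5.1, c5.2]
  · right
    have z7 := h1 _ k7
    have k0 : 0 ∈ fam s := by
      by_contra hn
      have := h1 _ hn
      linarith [h0 4, c5.2]
    refine ⟨?_, ?_⟩
    · rcases g2 with k | k
      · have := h1 _ k
        exact (min_le_left _ _).trans (by linarith [h0 3, c5.1])
      · have := h1 _ k
        exact (min_le_right _ _).trans (by linarith [h0 3, c5.1])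
    · rintro y ⟨c', -, h1', rfl⟩
      have a5 := h1' _ (g4 k0).1
      have a6 := h1' _ (g4 k0).2.1
      simp [Fin.sum_univ_eight, vec, g, a5, a6]

theorem stable_sub : stable Sig Lc ⊆ {q0} := by
  rintro x ⟨s, t, h1, h2, h3⟩
  rcases cases_pt s x h1 h2 with h | ⟨-, h⟩
  · exact h
  · exfalso
    change dim (cone (fam s) + Pl) = 4 at h3
    have hle : vectorSpan ℝ (cone (fam s) + Pl) ≤
        LinearMap.ker (LinearMap.proj (R := ℝ) (φ := fun _ : Fin 4 => ℝ) 1) := by
      rw [vectorSpan_def, Submodule.span_le]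
      rintro _ ⟨_, ⟨a, ha, b, hb, rfl⟩, _, ⟨a', ha', b', hb', rfl⟩, rfl⟩
      simp [h a ha, h a' ha', hb.2, hb'.2]
    have htop : vectorSpan ℝ (cone (fam s) + Pl) = ⊤ :=
      Submodule.eq_top_of_finrank_eq (by rw [dim] at h3; rw [h3]; simp)
    have := hle (htop ▸ Submodule.mem_top (x := (![0, 1, 0, 0] : V 4)))
    simp at this

theorem q0_stable : q0 ∈ stable Sig Lc := by
  have hq : q0 = vec (g 7) := by funext k; fin_cases k <;> simp [q0, vec, g]
  refine ⟨(16 : Fin 20), (0 : Fin 1), hq ▸ gen_mem (by decide), q0_mem, ?_⟩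
  change dim (cone (fam 16) + Pl) = 4
  have key : ∀ a ∈ cone (fam 16), ∀ b : V 4, b 0 = 0 → b 1 = 0 →
      a + b ∈ vectorSpan ℝ (cone (fam 16) + Pl) := by
    intro a ha b b0 b1
    have h1 : a + (b + p0) ∈ cone (fam 16) + Pl :=
      Set.add_mem_add ha (add_p0 b0 b1)
    have h2 : 0 + p0 ∈ cone (fam 16) + Pl := Set.add_mem_add (zero_mem _) p0_mem
    have := vsub_mem_vectorSpan ℝ h1 h2
    convert this using 1
    rw [vsub_eq_sub]; abel
  have htop : vectorSpan ℝ (cone (fam 16) + Pl) = ⊤ := by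
    rw [eq_top_iff]
    intro x _
    have k1 := key _ (gen_mem (i := 7) (by decide)) 0 rfl rfl
    have k2 := key _ (gen_mem (i := 5) (by decide)) 0 rfl rfl
    have k3 := key _ (zero_mem _) ![0, 0, x 2 - x 0 + x 1, x 3 - x 0 + x 1] rfl rfl
    have := Submodule.add_mem _ (Submodule.add_mem _ (Submodule.smul_mem _ (x 0) k1)
      (Submodule.smul_mem _ (x 1) k2)) k3
    convert this using 1
    funext k
    fin_cases k <;> simp [vec, g] <;> ring
  rw [dim, htop]; simp

theorem main : (stable Sig Lc).Nonempty ∧ ∃ p ∈ support Sig ∩ support Lc,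
    Disjoint (connectedComponentIn (support Sig ∩ support Lc) p) (stable Sig Lc) := by
  have hp : p0 = vec (g 0) := by funext k; fin_cases k <;> simp [p0, vec, g]
  have hmem : p0 ∈ support Sig ∩ support Lc :=
    ⟨Set.mem_iUnion.2 ⟨(1 : Fin 20), hp ▸ gen_mem (by decide)⟩,
      Set.mem_iUnion.2 ⟨(0 : Fin 1), p0_mem⟩⟩
  refine ⟨⟨q0, q0_stable⟩, p0, hmem, Set.disjoint_left.2 fun x hx hs => ?_⟩
  obtain rfl : x = q0 := stable_sub hs
  have hc := isPreconnected_connectedComponentIn (x := p0) (F := support Sig ∩ support Lc)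
  obtain ⟨y, hy, e⟩ := hc.intermediate_value (mem_connectedComponentIn hmem) hx
    (f := fun y : V 4 => min (y 2) (y 3)) (by fun_prop)
    (show (1 / 2 : ℝ) ∈ Set.Icc _ _ by simp [p0, q0]; norm_num)
  obtain ⟨y1, y2⟩ := connectedComponentIn_subset _ _ hy
  obtain ⟨s, y1⟩ := Set.mem_iUnion.1 y1
  obtain ⟨t, y2⟩ := Set.mem_iUnion.1 y2
  rcases cases_pt s y y1 y2 with h | ⟨h, -⟩
  · subst h; simp [q0] at e
  · simp only at e; linarith

end Pool.Agent.H.MP_7d0545_co
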