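import Mathlib

namespace Pool.Agent.H.MP_7d0545_co

open Pointwise Classical

abbrev V (n : ℕ) := Fin n → ℝ

def IsPolyhedron {n : ℕ} (P : Set (V n)) : Prop :=
  P.Nonempty ∧ ∃ H : Set ((V n →ₗ[ℝ] ℝ) × ℝ), H.Finite ∧ P = {x | ∀ h ∈ H, h.1 x ≤ h.2}

def IsFace {n : ℕ} (F P : Set (V n)) : Prop :=
  F.Nonempty ∧ ∃ (a : V n →ₗ[ℝ] ℝ) (b : ℝ), (∀ x ∈ P, a x ≤ b) ∧ F = {x ∈ P | a x = b}

noncomputable def dim {n : ℕ} (P : Set (V n)) : ℕ := Module.finrank ℝ (vectorSpan ℝ P)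

def vec {n : ℕ} (u : Fin n → ℤ) : V n := fun i => (u i : ℝ)

def IsRational {n : ℕ} (P : Set (V n)) : Prop :=
  ∃ S : Set (Fin n → ℤ), vectorSpan ℝ P = Submodule.span ℝ (vec '' S)

def IsNormal {n : ℕ} (T S : Set (V n)) (u : Fin n → ℤ) : Prop :=
  vec u ∈ vectorSpan ℝ S ∧
  (∀ v : Fin n → ℤ, vec v ∈ vectorSpan ℝ S → ∃ k : ℤ, vec (v - k • u) ∈ vectorSpan ℝ T) ∧
  ∃ x ∈ T, ∃ e : ℝ, 0 < e ∧ x + e • vec u ∈ S

structure PolyComplex (n : ℕ) where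
  m : ℕ
  cell : Fin m → Set (V n)
  d : ℕ
  inj : Function.Injective cell
  poly : ∀ i, IsPolyhedron (cell i)
  rat : ∀ i, IsRational (cell i)
  faces : ∀ i F, IsFace F (cell i) → ∃ j, cell j = F
  inter : ∀ i j, (cell i ∩ cell j).Nonempty → IsFace (cell i ∩ cell j) (cell i)
  pure : ∀ i, ∃ j, cell i ⊆ cell j ∧ dim (cell j) = d

def Balancing {n : ℕ} (C : PolyComplex n) (w : Fin C.m → ℝ) : Prop :=
  ∀ t, dim (C.cell t) + 1 = C.d → ∃ u : Fin C.m → Fin n → ℤ,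
    (∀ s, dim (C.cell s) = C.d → C.cell t ⊆ C.cell s → IsNormal (C.cell t) (C.cell s) (u s)) ∧
    (∑ s with dim (C.cell s) = C.d ∧ C.cell t ⊆ C.cell s, w s • vec (u s)) ∈
      vectorSpan ℝ (C.cell t)

def IsBalanced {n : ℕ} (C : PolyComplex n) (w : Fin C.m → ℕ) : Prop :=
  (∀ s, dim (C.cell s) = C.d → 0 < w s) ∧ Balancing C (fun s => (w s : ℝ))

def Extremal {n : ℕ} (C : PolyComplex n) (w : Fin C.m → ℕ) : Prop :=
  ∀ w' : Fin C.m → ℝ, Balancing C w' → ∃ c : ℝ, ∀ s, dim (C.cell s) = C.d → w' s = c * w s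

def support {n : ℕ} (C : PolyComplex n) : Set (V n) := ⋃ i, C.cell i

def stable {n : ℕ} (C D : PolyComplex n) : Set (V n) :=
  {x | ∃ i j, x ∈ C.cell i ∧ x ∈ D.cell j ∧ dim (C.cell i + D.cell j) = n}

end Pool.Agent.H.MP_7d0545_co
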